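import Pool.Agent.Helper70.BU.Goals

set_option autoImplicit false

/-!
# Project TW, packet APXB
-/

namespace Pool.Agent.Helper2.BU

open MvPolynomial Pool.Agent.Helper70.BU

section

variable {ι κ : Type} [Fintype ι] [DecidableEq κ] (b : ι → κ)

theorem norm_le_one {z : ι → ℂ} (hz : z ∈ Sph b) (i : ι) : ‖z i‖ ≤ 1 := by
  have h1 : ‖z i‖ ^ 2 ≤ ∑ j with b j = b i, ‖z j‖ ^ 2 :=
    Finset.single_le_sum (f := fun j => ‖z j‖ ^ 2) (fun j _ => sq_nonneg _)
      (Finset.mem_filter.2 ⟨Finset.mem_univ _, rfl⟩)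
  have h2 : ∑ j with b j = b i, ‖z j‖ ^ 2 = 1 := hz (b i)
  have h3 := norm_nonneg (z i)
  nlinarith

theorem const_apx (c : ℂ) : Apx b (fun _ => c) 0 := by
  refine ⟨⟨‖c‖, fun z _ => le_rfl⟩, fun K => ⟨0, 0, le_rfl, fun n _ m m' _ hsh => ?_⟩⟩
  have hm : m' = m := by
    funext k
    have := hsh k
    simp only [Pi.zero_apply, add_zero] at this
    exact_mod_cast this
  subst hm
  refine ⟨c • LinearMap.id, fun u M _ z _ => ?_⟩
  simp

theorem coord_apx (i : ι) : Apx b (fun z => z i) (fun k => if b i = k then 1 else 0) := by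
  refine ⟨⟨1, fun z hz => norm_le_one b hz i⟩, fun K => ⟨0, 0, le_rfl, fun n _ m m' _ hsh => ?_⟩⟩
  have hm : m' = wt b i + m := by
    funext k
    have := hsh k
    beta_reduce at this
    unfold wt
    rw [Pi.add_apply, Pi.single_apply]
    by_cases h : b i = k
    · rw [if_pos h] at this
      rw [if_pos h.symm]
      omega
    · rw [if_neg h] at this
      rw [if_neg fun h' => h h'.symm]
      omega
  have hmem : ∀ x ∈ H b m, LinearMap.mulLeft ℂ (X i : MvPolynomial ι ℂ) x ∈ H b m' := by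
    intro x hx
    unfold H at hx ⊢
    rw [mem_weightedHomogeneousSubmodule] at hx ⊢
    rw [LinearMap.mulLeft_apply, hm]
    exact (isWeightedHomogeneous_X ℂ (wt b) i).mul hx
  refine ⟨(LinearMap.mulLeft ℂ (X i : MvPolynomial ι ℂ)).restrict hmem, fun u M _ z _ => ?_⟩
  rw [LinearMap.coe_restrict_apply, LinearMap.mulLeft_apply, map_mul, eval_X]
  simp

end

theorem conj_apx (hCE : CE) {ι κ : Type} [Fintype ι] [DecidableEq ι] [Fintype κ] [DecidableEq κ]
    (b : ι → κ) (i : ι) :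
    Apx b (fun z => (starRingEnd ℂ) (z i)) (fun k => if b i = k then -1 else 0) := by
  refine ⟨⟨1, fun z hz => by rw [RCLike.norm_conj]; exact norm_le_one b hz i⟩, fun K =>
    ⟨4 + K, K + 1, by positivity, fun n hn m m' hnear hsh => ?_⟩⟩
  have hk1 : 1 ≤ m (b i) := by
    have := (hnear (b i)).2
    omega
  have hm : m' + wt b i = m := by
    funext k
    have := hsh k
    beta_reduce at this
    unfold wt
    rw [Pi.add_apply, Pi.single_apply]
    by_cases h : b i = k
    · rw [if_pos h] at this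
      rw [if_pos h.symm]
      omega
    · rw [if_neg h] at this
      rw [if_neg fun h' => h h'.symm]
      omega
  have hmem : ∀ x ∈ H b m, ((1 / (n : ℂ)) • (pderiv i : Derivation ℂ (MvPolynomial ι ℂ)
      (MvPolynomial ι ℂ)).toLinearMap) x ∈ H b m' := by
    intro x hx
    rw [LinearMap.smul_apply]
    refine Submodule.smul_mem _ _ ?_
    unfold H at hx ⊢
    rw [mem_weightedHomogeneousSubmodule] at hx ⊢
    exact hx.pderiv hm
  refine ⟨((1 / (n : ℂ)) • (pderiv i : Derivation ℂ (MvPolynomial ι ℂ)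
      (MvPolynomial ι ℂ)).toLinearMap).restrict hmem, fun u M hM z hz => ?_⟩
  rw [LinearMap.coe_restrict_apply, LinearMap.smul_apply, smul_eval]
  have hce := hCE ι κ b m i u u.2 hk1 M hM z hz
  have hM0 : 0 ≤ M := (norm_nonneg _).trans (hM z hz)
  have hn0 : (0 : ℝ) < n := by
    have : 0 < n := by omega
    exact_mod_cast this
  have hnc : (n : ℂ) ≠ 0 := by
    have : (n : ℝ) ≠ 0 := hn0.ne'
    exact_mod_cast this
  set k := b i with hk
  set D := eval z ((pderiv i : Derivation ℂ (MvPolynomial ι ℂ)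
      (MvPolynomial ι ℂ)).toLinearMap (u : MvPolynomial ι ℂ)) with hD
  set U := eval z (u : MvPolynomial ι ℂ) with hU
  have hce' : ‖D - (m k : ℂ) * (starRingEnd ℂ) (z i) * U‖ ≤ 2 * Real.sqrt (m k) * M := hce
  have hUM : ‖U‖ ≤ M := hM z hz
  have hzi : ‖(starRingEnd ℂ) (z i)‖ ≤ 1 := by rw [RCLike.norm_conj]; exact norm_le_one b hz i
  have e1 : 1 / (n : ℂ) * D - (starRingEnd ℂ) (z i) * U =
      1 / (n : ℂ) * (D - (m k : ℂ) * (starRingEnd ℂ) (z i) * U) +
        ((((m k : ℝ) - n) / n : ℝ) : ℂ) * ((starRingEnd ℂ) (z i) * U) := by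
    push_cast
    field_simp
    ring
  have hmk1 : (m k : ℝ) ≤ n + K := by exact_mod_cast (hnear k).1
  have hmk2 : (n : ℝ) ≤ m k + K := by exact_mod_cast (hnear k).2
  have hK : (K : ℝ) ≤ n := by
    have : K ≤ n := by omega
    exact_mod_cast this
  have hab : |((m k : ℝ) - n) / n| ≤ K / n := by
    rw [abs_div, abs_of_pos hn0]
    exact div_le_div_of_nonneg_right (abs_le.2 ⟨by linarith, by linarith⟩) hn0.le
  have h1 : ‖1 / (n : ℂ) * (D - (m k : ℂ) * (starRingEnd ℂ) (z i) * U)‖ ≤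
      1 / n * (2 * Real.sqrt (m k) * M) := by
    rw [norm_mul, norm_div, norm_one, Complex.norm_natCast]
    exact mul_le_mul_of_nonneg_left hce' (by positivity)
  have h2 : ‖((((m k : ℝ) - n) / n : ℝ) : ℂ) * ((starRingEnd ℂ) (z i) * U)‖ ≤ K / n * M := by
    rw [norm_mul, Complex.norm_real, Real.norm_eq_abs, norm_mul]
    refine mul_le_mul hab ?_ (by positivity) (by positivity)
    calc ‖(starRingEnd ℂ) (z i)‖ * ‖U‖ ≤ 1 * M :=
          mul_le_mul hzi hUM (norm_nonneg _) zero_le_one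
      _ = M := one_mul M
  have hsn : 0 < Real.sqrt n := Real.sqrt_pos.2 hn0
  have hsn2 : Real.sqrt n * Real.sqrt n = n := Real.mul_self_sqrt hn0.le
  have hsn1 : 1 ≤ Real.sqrt n := by
    rw [Real.one_le_sqrt]
    have : 1 ≤ n := by omega
    exact_mod_cast this
  have hsm : Real.sqrt (m k) ≤ 2 * Real.sqrt n := by
    have h3 : Real.sqrt (m k) ≤ Real.sqrt (4 * n) := Real.sqrt_le_sqrt (by linarith)
    have h4 : Real.sqrt (4 * n) = 2 * Real.sqrt n := by
      rw [Real.sqrt_mul (by norm_num)]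
      have : Real.sqrt 4 = 2 := by
        rw [show (4 : ℝ) = 2 ^ 2 by norm_num, Real.sqrt_sq (by norm_num)]
      rw [this]
    rw [h4] at h3
    exact h3
  have h5 : 1 / (n : ℝ) * (2 * Real.sqrt (m k) * M) + K / n * M ≤ (4 + K) / Real.sqrt n * M := by
    have h6 : 1 / (n : ℝ) * (2 * Real.sqrt (m k) * M) + K / n * M =
        ((2 * Real.sqrt (m k) + K) / n) * M := by
      ring
    rw [h6]
    refine mul_le_mul_of_nonneg_right ?_ hM0
    rw [div_le_div_iff₀ hn0 hsn]
    have hK0 : (0 : ℝ) ≤ K := Nat.cast_nonneg K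
    have h7 : (2 * Real.sqrt (m k) + K) ≤ (4 + K) * Real.sqrt n := by nlinarith
    calc (2 * Real.sqrt (m k) + K) * Real.sqrt n ≤ ((4 + K) * Real.sqrt n) * Real.sqrt n :=
          mul_le_mul_of_nonneg_right h7 hsn.le
      _ = (4 + K) * n := by rw [mul_assoc, hsn2]
  calc ‖1 / (n : ℂ) * D - (starRingEnd ℂ) (z i) * U‖
      = ‖1 / (n : ℂ) * (D - (m k : ℂ) * (starRingEnd ℂ) (z i) * U) +
        ((((m k : ℝ) - n) / n : ℝ) : ℂ) * ((starRingEnd ℂ) (z i) * U)‖ := by rw [e1]
    _ ≤ _ := norm_add_le _ _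
    _ ≤ 1 / (n : ℝ) * (2 * Real.sqrt (m k) * M) + K / n * M := add_le_add h1 h2
    _ ≤ _ := h5

/-- Packet TW-APXB. -/
theorem apxb : CE → APXB := fun hCE ι κ _ _ _ _ b =>
  ⟨const_apx b, coord_apx b, conj_apx hCE b⟩

end Pool.Agent.Helper2.BU
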